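import Pool.Agent.Q27.FJT.AscTypes

/-!
# Farrell–Jones groups: transfinite series of normal subgroups

`ClosedF C` lists closure properties of the class of groups which satisfy the K-theoretic
Farrell–Jones conjecture with additive category coefficients and finite wreath products (subgroups,
finite products, free products, overgroups of finite index, directed colimits, the extension
criterion, extensions with free kernel), and this class contains all solvable groups. `D = C` is
allowed.

Outline of the proof. Let `N` be a normal subgroup with `Asc C N` and let `W` be a subgroup of `G`
with `W / (W ∩ N)` in `C`. Then `W` is in `C`, by induction: the case of a factor is the extension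
criterion. Let `N` be the union of the directed set `S` and let `w` in `W` have infinite order modulo
`N`. The subgroup generated by `W ∩ N` and `w` is the union of the groups `(W ∩ M)⟨w⟩`, `M` in `S`, and
`(W ∩ M)⟨w⟩ ∩ N = W ∩ M`, so that these groups are infinite cyclic modulo their intersection with
`M`. By induction they are in `C`, and the extension criterion gives `W` in `C`.
-/

set_option autoImplicit false

namespace Pool.Agent.Results.MP_5d3e93_al.AscendingSeries

open Q27.TE (Asc AL Kind LocFin fac)
open Q30.FJ (ClosedOver ClosedF)

/-- Let `C` be a class of groups with the closure properties `ClosedF C` which contains all solvable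
groups, and let the class `D` be closed under subgroups and satisfy the extension principle over `C`
(`D = C` is possible).

(1) Let the normal subgroup `N` of `G` be reached from the trivial subgroup by transfinitely many
extensions, from `M` to `N'` with `M ≤ N'` normal in `G` such that modulo `M` the group generated by
`N'` and `g` is in `C` for each `g` in `G`, and by directed unions. If `G ⧸ N` is in `D`, then `G` is
in `D`.

(2) The condition on `M ≤ N'` in (1) holds if `N' / M` is free, virtually solvable, locally finite, or
in `C` and each automorphism of it has a positive power which is inner.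

(3) Every group `G` has a largest normal subgroup `R` which is reached from the trivial subgroup by
extensions by abelian or locally finite normal factors and by directed unions, and `G ⧸ R` has no
nontrivial normal subgroup which is abelian or locally finite. If `G ⧸ R` is in `D`, then `G` is in
`D`. -/
theorem result (C D : ∀ (G : Type) [Group G], Prop) (hC : ClosedF C) (hD : ClosedOver C D)
    (hsol : ∀ (G : Type) [Group G], Group.IsSolvable G → C G) :
    (∀ (G : Type) [Group G] (N : Subgroup G) [N.Normal], Asc C N → D (G ⧸ N) → D G) ∧
    (∀ (G : Type) [Group G] (M N : Subgroup G) [M.Normal] [N.Normal], Kind C (fac M N) →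
      ∀ g : G, C ↥((N ⊔ Subgroup.zpowers g).map (QuotientGroup.mk' M))) ∧
    (∀ (G : Type) [Group G], ∃ (R : Subgroup G) (_ : R.Normal), AL R ∧ (∀ N, AL N → N ≤ R) ∧
      (D (G ⧸ R) → D G) ∧ ∀ B : Subgroup (G ⧸ R), B.Normal →
        ((∀ a b : B, a * b = b * a) ∨ LocFin B) → B = ⊥) := by
  refine ⟨fun G _ N _ hN hQ => hN.over hC.base hD hQ,
    fun G _ M N _ _ h g => Q27.TE.kind_fac hC hsol M N h g, fun G _ => ?_⟩
  obtain ⟨R, hR, hmax, hB⟩ := Q27.TE.exists_radical G
  exact ⟨R, hR.normal, hR, hmax, fun hQ => (hR.asc hC hsol).over (N := R) (hN := hR.normal)
    hC.base hD hQ, hB hR.normal⟩

end Pool.Agent.Results.MP_5d3e93_al.AscendingSeries
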