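import Pool.Agent.Q182.CylMain

/-!
# Groups acting on trees with virtually cyclic edge stabilizers

`C` is any class of groups with the closure properties `ClosedA C`: the usual closure properties
`ClosedE C` and closure under acylindrical actions on trees. All of them are known for the class of
the groups which satisfy the K-theoretic Farrell–Jones conjecture with additive category
coefficients and finite wreath products; the one on acylindrical actions is a theorem of Knopf.

The action of `G` on the tree is not assumed to be acylindrical, and there are no finiteness
conditions. For instance part 2 applies to all amalgamated products `A *_E B` of groups `A`, `B` in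
`C` over a virtually cyclic group `E` such that no power of an element of infinite order of `E` is
conjugate in `A` or in `B` to a power with another absolute value of the exponent.

Outline of the proof. The edges with commensurable infinite stabilizers form subtrees, the
cylinders. Coning off the cylinders gives a tree, with an acylindrical action of `G`. The stabilizer
of a cylinder is the commensurator of an edge stabilizer. If the edge stabilizers are virtually
cyclic and balanced, then this commensurator is a directed union of normalizers of infinite cyclic
groups `Z`, and the quotients of these normalizers by `Z` act on the trees of the fixed points of `Z`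
with finite edge stabilizers.
-/

set_option autoImplicit false

namespace Pool.Agent.Results.MP_5d3e93_al.CyclicEdges

open Q182.Cyl (ClosedA Est)

/-- Let `C` be a class of groups with the closure properties `ClosedA C`. Let `G` be a group acting
without inversions on a tree so that all vertex stabilizers are in `C`. The stabilizer of the edge
between `v` and `w` is `Est G v w`.

1. Suppose that any two edge stabilizers are commensurable or have a finite intersection, and that
the commensurators of the infinite edge stabilizers are in `C`. Then `G` is in `C`.

2. Suppose that all edge stabilizers are virtually cyclic (possibly finite), and that for all elements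
`h` of infinite order of edge stabilizers, `g` in `G` and integers `m`, `n` the equality
`g h ^ m g⁻¹ = h ^ n` implies `|m| = |n|`. Then `G` is in `C`. -/
theorem result (C : ∀ (G : Type) [Group G], Prop) (hC : ClosedA C) (G V : Type) [Group G]
    [MulAction G V] (T : SimpleGraph V) (hT : T.IsTree)
    (hadj : ∀ (g : G) (v w : V), T.Adj v w → T.Adj (g • v) (g • w))
    (hinv : ∀ (g : G) (v w : V), T.Adj v w → ¬ (g • v = w ∧ g • w = v))
    (hst : ∀ v : V, C (MulAction.stabilizer G v)) :
    ((∀ v w v' w' : V, T.Adj v w → T.Adj v' w' →
        Subgroup.Commensurable (Est G v w) (Est G v' w') ∨
          Finite ↥(Est G v w ⊓ Est G v' w')) →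
      (∀ v w : V, T.Adj v w → Infinite (Est G v w) →
        C (Subgroup.Commensurable.commensurator (Est G v w))) → C G) ∧
    ((∀ v w : V, T.Adj v w →
        ∃ c ∈ Est G v w, (Subgroup.zpowers c).relIndex (Est G v w) ≠ 0) →
      (∀ (v w : V) (h g : G) (m n : ℤ), T.Adj v w → h ∈ Est G v w →
        (∀ k : ℕ, 0 < k → h ^ k ≠ 1) → g * h ^ m * g⁻¹ = h ^ n → |m| = |n|) → C G) :=
  ⟨fun h1 h2 => Q182.Cyl.main1 hC ⟨hT, hadj, hinv⟩ h1 hst h2,
    fun h1 h2 => Q182.Cyl.main2 hC ⟨hT, hadj, hinv⟩ h1 h2 hst⟩

end Pool.Agent.Results.MP_5d3e93_al.CyclicEdges
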