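import Pool.Agent.Q171.KV.Fun
import Pool.Agent.Y483.PW.Int

/-!
The kernels of the assembly maps in higher algebraic K-theory of groups `N ⋊ Γ`, `Γ` arbitrary,
integrally and rationally, with coefficients in an arbitrary ring `S`.

`Γ` is an arbitrary group, acting on a set `V` and on a group `N` with endomorphisms `e_T`, `T ⊆ V`,
such that `e_T e_U = e_{T ∩ U}` and `γ e_T = e_{γ T} γ`, and each element of `N` is fixed by `e_T` for
some finite `T`; `N_σ` is the image of `e_σ` and `Γ_σ` is the group of the elements of `Γ` which fix
the elements of `σ`. For instance `N` can be a graph product of groups `P v`, `v ∈ V`, the group `Γ`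
permuting the `P v`, or a relatively free group on the set `V`.

1. `kvI S n` is the functor `G ↦ KV_{n+1}(S[G])`, not tensored with `ℚ`, `H` is any functor from groups
to abelian groups on which inner automorphisms act trivially, for instance the homology theory
`G ↦ H_m(BG; K(S))`, and `α : H ⟶ kvI S n` is natural. Let `C` be a `Γ`-invariant set of finite subsets
of `V` closed under subsets, and let `q` be a common multiple of the numbers of the permutations of
`σ`, `σ ∈ C`, which are restrictions of elements of `Γ` (`q = 1` if `Γ` is torsion-free and acts freely).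
If `x ∈ H(N ⋊ Γ)` is a sum of elements from the groups `H(N_σ ⋊ Γ_σ)`, `σ ∈ C`, and `α(x) = 0`, then
`q x` is a sum of elements from the kernels of `α` for the groups `N_σ ⋊ Γ_σ`, `σ ∈ C`.

2. `kvQ S n` is the functor `G ↦ ℚ ⊗ KV_{n+1}(S[G])` and `α_b : H_{d(b)}(G; ℚ) → ℚ ⊗ KV_{n+1}(S[G])`,
`b ∈ B`, is any family of transformations natural in the group `G`, for instance the rational assembly
map. The kernel of the sum of the `α_b` for `N ⋊ Γ` is generated by the images of the kernels for the
subgroups `N_σ ⋊ Γ_σ`, where `σ` runs through the finite subsets of `V` without two elements `u ≠ v`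
such that `N` is the amalgamated product of `N_{V - u}` and `N_{V - v}` along `N_{V - {u, v}}` (the
finite cliques if `N` is a graph product).

`KVz Z n A` is `Z ⊗ KV_{n+1}(A)`, where `KV_m(A)`, `m ≥ 1`, is the K-theory of Karoubi and Villamayor
of the ring `A`: it has the generators `[u]` for the invertible matrices `u` over `A[X₁, …, X_n]`
which are congruent to the identity modulo the ideal of the `n`-fold loops (the polynomials which
vanish if some `X_i` is `0` or `1`), and the relations `[u v] = [u] + [v]`, `[u'] = [u]` for the
stabilizations `u'` of `u`, and `[h(1)] = 0` for the invertible matrices `h` over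
`A[t][X₁, …, X_n]` congruent to the identity modulo this ideal with `h(0) = 1`. There are natural maps
`K_m(A) → KV_m(A)`, which are isomorphisms if `A` is regular.
-/

namespace Pool.Agent.Results.MP_5d3e93_al.HigherSupportKernels

open CategoryTheory Pool.Agent.Y483 Pool.Agent.Y75.MQ Pool.Agent.Y483.PW Pool.Agent.Y483.PI
  Pool.Agent.Q171.KV

theorem result (S : Type) [Ring S] (n : ℕ) {Γ N V : Type} [Group Γ] [Group N] [MulAction Γ V]
    (s : Sys Γ N V) :
    (∀ (C : Set (Finset V)), IsFam Γ C → ∀ q : ℕ, (∀ σ ∈ C, permNo Γ σ ∣ q) →
      KerFormula (kvI S n) s C q) ∧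
    ∀ {B : Type} {d : B → ℕ} (α : ∀ b : B, hq (d b) ⟶ kvQ S n),
      GenSub α (fun σ : s.Cl => s.supG σ.1) :=
  ⟨fun C hC q hq => kerFormula (hasPTI_kv S n) s C hC q hq, fun α => sys_gen (hasPT_kv S n) α s⟩

end Pool.Agent.Results.MP_5d3e93_al.HigherSupportKernels
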