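import Pool.Agent.Q182.LuMain

/-!
# Groups acting on trees: conditions on the finitely generated subgroups of the edge stabilizers

`C` is any class of groups with the closure properties `ClosedA C`: the usual closure properties
`ClosedE C` and closure under acylindrical actions on trees. They are known for the class of the
groups which satisfy the K-theoretic Farrell–Jones conjecture with coefficients in additive
categories and finite wreath products (acylindrical actions: Knopf).

The theorem below says that a group `G` acting on a tree with vertex stabilizers in `C` is in `C`
if every finitely generated subgroup `E` of an edge stabilizer has one of two properties:
`VcBal E`, `E` is virtually cyclic and powers of an element of infinite order of `E` are conjugate in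
`G` only if the exponents agree up to sign; `FinKer C E`, some homomorphism from `G` to a group in
`C`, which may depend on `E`, has a finite kernel on `E`. Finite `E` have both properties, so `G` is in
`C` whenever the edge stabilizers are locally finite; for locally virtually cyclic edge stabilizers
(for instance subgroups of the rational numbers) the second part of `VcBal` suffices.

Outline of the proof. `G` embeds as a retract in a multiple HNN extension `U` of the free product
of the stabilizers of representatives of the vertices, with one letter for each orbit of edges: the
stabilizer elements and the edges give a cochain on the tree with values in `U`, and its potential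
gives the embedding. `U` is the colimit of the groups with finitely many of the relations, which
are iterated HNN extensions with finitely generated associated subgroups. Each of them has a
homomorphism to `G` which is injective on the associated subgroups (not on the base), so that our
theorems on trees with virtually cyclic edge stabilizers and on finite kernels on the edge
stabilizers apply at each step.
-/

set_option autoImplicit false

namespace Pool.Agent.Results.MP_5d3e93_al.LocalEdgeConditions

open Q182.Cyl (ClosedA)
open Q182.Lu (VcBal FinKer)

/-- Let `C` be a class of groups with the closure properties `ClosedA C`. Let `G` be a group acting
without inversions on a tree so that all vertex stabilizers are in `C`. Suppose that every finitely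
generated subgroup `E` of the stabilizer of an edge has one of the properties `VcBal E`, `FinKer C E`.
Then `G` is in `C`. -/
theorem result (C : ∀ (G : Type) [Group G], Prop) (hC : ClosedA C) (G V : Type) [Group G]
    [MulAction G V] (T : SimpleGraph V) (hT : T.IsTree)
    (hadj : ∀ (g : G) (v w : V), T.Adj v w → T.Adj (g • v) (g • w))
    (hinv : ∀ (g : G) (v w : V), T.Adj v w → ¬ (g • v = w ∧ g • w = v))
    (hst : ∀ v : V, C (MulAction.stabilizer G v))
    (hE : ∀ v w : V, T.Adj v w → ∀ E : Subgroup G, E.FG → (∀ e ∈ E, e • v = v ∧ e • w = w) →
      VcBal E ∨ FinKer C E) : C G :=
  Q182.Lu.main hC ⟨hT, hadj, hinv⟩ (fun v w h E hE1 hE2 => hE v w h E hE1 (fun _ he => hE2 he)) hst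

end Pool.Agent.Results.MP_5d3e93_al.LocalEdgeConditions
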